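import Pool.Agent.Helper91.FF.P1Lib

/-!
# P1A: the linear system for the reduction of `χ τ` and of its derivative
-/

set_option autoImplicit false

namespace Pool.Agent.Helper60.FF

open Polynomial

section

variable {p : ℕ} [hp : Fact p.Prime]

theorem p1a_package (hDER : ST_DER) (hFDV : ST_FDV) {E₁ E : IntermediateField ℚ_[p] ℂ_[p]}
    {π₁ π : ℂ_[p]} {f₁ f M : ℕ} (h₁ : LF E₁ π₁ f₁) (h : LF E π f) (hle : E₁ ≤ E) (hM2 : 2 ≤ M)
    (hM : ‖π‖ ^ M = ‖π₁‖) :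
    P1D E π f ∧ Dv π f π = 1 ∧ (∀ x ∈ E, x ^ (p ^ f) = x → Dv π f x = 0) ∧
      (∀ x ∈ E₁, ‖x‖ ≤ 1 → Dv π f x = 0) := by
  have h2 : ‖π₁‖ ≤ ‖π‖ ^ 2 := by
    rw [← hM]
    exact pow_le_pow_of_le_one h.pos.le h.lt.le hM2
  have hp0 : (p : ℂ_[p]) ≠ 0 := by
    have := hp.out.ne_zero
    exact_mod_cast this
  have hplt : ‖(p : ℂ_[p])‖ < 1 := by
    rw [norm_p]
    exact inv_lt_one_of_one_lt₀ (by exact_mod_cast hp.out.one_lt)
  obtain ⟨j, hj⟩ := h₁.val (p : ℂ_[p]) (natCast_mem _ _) hp0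
  have hj1 : 1 ≤ j := by
    by_contra hc
    have h3 : ‖π₁‖ ^ (0 : ℤ) ≤ ‖π₁‖ ^ j :=
      zpow_le_zpow_right_of_le_one₀ h₁.pos h₁.lt.le (by omega)
    rw [← hj, zpow_zero] at h3
    exact absurd hplt (not_lt.2 h3)
  have hp2 : ‖(p : ℂ_[p])‖ ≤ ‖π‖ ^ 2 := by
    refine le_trans ?_ h2
    rw [hj]
    have h3 : ‖π₁‖ ^ j ≤ ‖π₁‖ ^ (1 : ℤ) := zpow_le_zpow_right_of_le_one₀ h₁.pos h₁.lt.le hj1
    rwa [zpow_one] at h3
  obtain ⟨d1, d2, d3, d4, d5, d6, d7⟩ := hDER p E π f h hp2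
  obtain ⟨hdiv, _⟩ := hFDV p E₁ E π₁ π f₁ f h₁ h hle
  exact ⟨⟨fun x hx hx1 => (d1 x hx hx1).2, d2, d3, d5⟩, d4, d6, d7 E₁ π₁ f₁ h₁ hdiv h2⟩

theorem p1a_kum {n : ℕ} (K : KD p n) {E : IntermediateField ℚ_[p] ℂ_[p]}
    (hE : FiniteDimensional ℚ_[p] E) (hE₀ : K.E₀ ≤ E) {τ : ℂ_[p]} (hτ : τ ∈ E) (hτA : τ ∉ K.A)
    {c c' : RatFunc K.A} (hc : Ov K.A E c) (hc' : Ov K.A E c') {m : ℕ} (hm : 0 < m) (r : ℂ_[p])
    (h1 : (C r * K.χ τ).eval (ev K.A τ c) ≠ 0) (h2 : (C r * K.χ τ).eval (ev K.A τ c') ≠ 0) :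
    ∃ w ∈ E, w ≠ 0 ∧ (C r * K.χ τ).eval (ev K.A τ c) * ev K.A τ (K.H m c') =
        (C r * K.χ τ).eval (ev K.A τ c') * ev K.A τ (K.H m c) * w ^ m := by
  rw [eval_mul, eval_C] at h1 h2
  obtain ⟨w, hw, hw0, h3⟩ := K.kum E hE hE₀ c c' hc hc' τ hτ hτA m hm (right_ne_zero_of_mul h1)
    (right_ne_zero_of_mul h2)
  refine ⟨w, hw, hw0, ?_⟩
  rw [eval_mul, eval_mul, eval_C, eval_C, mul_assoc, h3]
  ring

section

variable {A : Subfield ℂ_[p]} {Em E : IntermediateField ℚ_[p] ℂ_[p]} {κ a ϖ : ℂ_[p]}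
  {P Q : Polynomial ℂ_[p]} {hh : RatFunc A}

theorem p1a_int_mono (hle : Em ≤ E) (h : Int' Em P) : Int' E P := fun j => ⟨hle (h j).1, (h j).2⟩

theorem p1a_H (hle : Em ≤ E) (hR : Rdx Em κ hh a ϖ P Q) {τ : ℂ_[p]} (hτA : τ ∉ A)
    (hy : (τ - a) / ϖ ∈ E) (hy1 : ‖(τ - a) / ϖ‖ ≤ 1) (hP : (rd P).eval (res ((τ - a) / ϖ)) ≠ 0)
    (hQ : (rd Q).eval (res ((τ - a) / ϖ)) ≠ 0) :
    ev A τ hh ∈ E ∧ ev A τ hh ≠ 0 ∧ ‖P.eval ((τ - a) / ϖ)‖ = 1 ∧ ‖Q.eval ((τ - a) / ϖ)‖ = 1 ∧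
      P.eval ((τ - a) / ϖ) ∈ E ∧ Q.eval ((τ - a) / ϖ) ∈ E ∧
      ev A τ hh * Q.eval ((τ - a) / ϖ) = κ * P.eval ((τ - a) / ϖ) := by
  obtain ⟨h1, h2, h3⟩ := hR.eq τ hτA
  obtain ⟨p1, p2, p3⟩ := p1a_eval E (p1a_int_mono hle hR.cP) hy hy1
  obtain ⟨q1, q2, q3⟩ := p1a_eval E (p1a_int_mono hle hR.cQ) hy hy1
  have h4 : ev A τ hh = κ * P.eval ((τ - a) / ϖ) / Q.eval ((τ - a) / ϖ) := by
    rw [← h3]
    field_simp
  refine ⟨?_, ?_, ?_, ?_, p1, q1, h3⟩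
  · rw [h4]
    exact div_mem (mul_mem (hle hR.κE) p1) q1
  · rw [h4]
    exact div_ne_zero (mul_ne_zero hR.κ0 h1) h2
  · rw [norm_eq_one_iff p2, p3]
    exact hP
  · rw [norm_eq_one_iff q2, q3]
    exact hQ

variable {π : ℂ_[p]} {f : ℕ}

/-- the unit part of `h τ` -/
theorem p1a_u_H (h : LF E π f) (hle : Em ≤ E) (hR : Rdx Em κ hh a ϖ P Q) {τ : ℂ_[p]}
    (hτA : τ ∉ A) (hy : (τ - a) / ϖ ∈ E) (hy1 : ‖(τ - a) / ϖ‖ ≤ 1)
    (hP : (rd P).eval (res ((τ - a) / ϖ)) ≠ 0) (hQ : (rd Q).eval (res ((τ - a) / ϖ)) ≠ 0) :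
    res (p1a_u π (ev A τ hh)) = res (p1a_u π κ) * (rd P).eval (res ((τ - a) / ϖ)) /
      (rd Q).eval (res ((τ - a) / ϖ)) := by
  obtain ⟨e1, e2, e3, e4, e5, e6, e7⟩ := p1a_H hle hR hτA hy hy1 hP hQ
  obtain ⟨p1, p2, p3⟩ := p1a_eval E (p1a_int_mono hle hR.cP) hy hy1
  obtain ⟨q1, q2, q3⟩ := p1a_eval E (p1a_int_mono hle hR.cQ) hy hy1
  have hP0 : P.eval ((τ - a) / ϖ) ≠ 0 := (hR.eq τ hτA).1
  have hQ0 : Q.eval ((τ - a) / ϖ) ≠ 0 := (hR.eq τ hτA).2.1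
  have h1 := congrArg (p1a_u π) e7
  rw [p1a_u_mul h e1 e2 e6 hQ0, p1a_u_mul h (hle hR.κE) hR.κ0 e5 hP0, p1a_u_one h e3,
    p1a_u_one h e4] at h1
  obtain ⟨_, _, _, u1, u2⟩ := p1a_u_spec h e1 e2
  obtain ⟨_, _, _, u3, u4⟩ := p1a_u_spec h (hle hR.κE) hR.κ0
  have h2 := congrArg res h1
  rw [res_mul u2.le q2, res_mul u4.le p2, p3, q3] at h2
  rw [eq_div_iff hQ]
  exact h2

/-- the logarithmic derivative of `h τ` -/
theorem p1a_al_H (h : LF E π f) (hD : P1D E π f) (hle : Em ≤ E)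
    (hEm : ∀ x ∈ Em, ‖x‖ ≤ 1 → Dv π f x = 0) (hR : Rdx Em κ hh a ϖ P Q) {τ : ℂ_[p]}
    (hτA : τ ∉ A) (hy : (τ - a) / ϖ ∈ E) (hy1 : ‖(τ - a) / ϖ‖ ≤ 1)
    (hP : (rd P).eval (res ((τ - a) / ϖ)) ≠ 0) (hQ : (rd Q).eval (res ((τ - a) / ϖ)) ≠ 0) :
    p1a_al π f (ev A τ hh) = p1a_al π f κ + Dv π f ((τ - a) / ϖ) *
      ((derivative (rd P)).eval (res ((τ - a) / ϖ)) / (rd P).eval (res ((τ - a) / ϖ)) -
        (derivative (rd Q)).eval (res ((τ - a) / ϖ)) / (rd Q).eval (res ((τ - a) / ϖ))) := by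
  obtain ⟨e1, e2, e3, e4, e5, e6, e7⟩ := p1a_H hle hR hτA hy hy1 hP hQ
  have hP0 : P.eval ((τ - a) / ϖ) ≠ 0 := (hR.eq τ hτA).1
  have hQ0 : Q.eval ((τ - a) / ϖ) ≠ 0 := (hR.eq τ hτA).2.1
  have hdd : ∀ G : Polynomial ℂ_[p], Int' Em G → p1a_dd π f G = 0 := by
    intro G hG
    ext j
    rw [p1a_coeff_dd, coeff_zero]
    exact hEm _ (hG j).1 (hG j).2
  have key : ∀ G : Polynomial ℂ_[p], Int' Em G → ‖G.eval ((τ - a) / ϖ)‖ = 1 →
      p1a_al π f (G.eval ((τ - a) / ϖ)) = Dv π f ((τ - a) / ϖ) *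
        ((derivative (rd G)).eval (res ((τ - a) / ϖ)) / (rd G).eval (res ((τ - a) / ϖ))) := by
    intro G hG hG1
    rw [p1a_al_one h hG1, p1a_D_eval hD (p1a_int_mono hle hG) hy hy1, hdd G hG, eval_zero, zero_add,
      (p1a_eval E (p1a_int_mono hle hG) hy hy1).2.2, mul_div_assoc]
  have h1 := congrArg (p1a_al π f) e7
  rw [p1a_al_mul h hD e1 e2 e6 hQ0, p1a_al_mul h hD (hle hR.κE) hR.κ0 e5 hP0, key P hR.cP e3,
    key Q hR.cQ e4] at h1
  rw [mul_sub, ← add_sub_assoc, ← h1, add_sub_cancel_right]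

end

/-- the value of the test functions -/
theorem p1a_cc {A : Subfield ℂ_[p]} (hEVH : ST_EVH) (hA : IsAlgClosed A) (a ϖ : A) {τ : ℂ_[p]}
    (hτA : τ ∉ A) (b : Bool) (i : ℕ) :
    ev A τ (cc A a ϖ b i) = (if b = true then (τ - (a : ℂ_[p])) / (ϖ : ℂ_[p]) else 0) + (i : ℂ_[p]) := by
  obtain ⟨e, h1, h2, h3, _, _⟩ := hEVH p A hA τ hτA
  rw [← h1]
  unfold cc yy
  rw [map_add, map_natCast]
  congr 1
  split_ifs with hb
  · rw [map_div₀, map_sub, h2, h3, h3]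
  · exact map_zero e

/-- the test functions are defined over `E` -/
theorem p1a_cc_ov {A : Subfield ℂ_[p]} {E : IntermediateField ℚ_[p] ℂ_[p]} (a ϖ : A) (hϖ : ϖ ≠ 0)
    (ha : (a : ℂ_[p]) ∈ E) (hϖE : (ϖ : ℂ_[p]) ∈ E) (b : Bool) (i : ℕ) : Ov A E (cc A a ϖ b i) := by
  have hC : ∀ (x : A) (j : ℕ), (x : ℂ_[p]) ∈ E → (((C x : Polynomial A).coeff j : A) : ℂ_[p]) ∈ E := by
    intro x j hx
    rw [coeff_C]
    split_ifs
    · exact hx
    · exact zero_mem _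
  have hX : ∀ j : ℕ, (((X : Polynomial A).coeff j : A) : ℂ_[p]) ∈ E := by
    intro j
    rw [coeff_X]
    split_ifs
    · exact one_mem _
    · exact zero_mem _
  have hi : (((i : ℕ) : A) : ℂ_[p]) ∈ E := by
    have h1 : (((i : ℕ) : A) : ℂ_[p]) = (i : ℂ_[p]) := by norm_cast
    rw [h1]
    exact natCast_mem _ _
  unfold cc
  split_ifs with hb
  · refine ⟨X - C a + C ((i : A) * ϖ), C ϖ, C_ne_zero.2 hϖ, ?_, fun j => hC ϖ j hϖE, ?_⟩
    · intro j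
      rw [coeff_add, coeff_sub]
      have h1 : (((X : Polynomial A).coeff j - (C a : Polynomial A).coeff j +
        (C ((i : A) * ϖ) : Polynomial A).coeff j : A) : ℂ_[p]) =
        (((X : Polynomial A).coeff j : A) : ℂ_[p]) - (((C a : Polynomial A).coeff j : A) : ℂ_[p]) +
        (((C ((i : A) * ϖ) : Polynomial A).coeff j : A) : ℂ_[p]) := rfl
      rw [h1]
      refine add_mem (sub_mem (hX j) (hC a j ha)) (hC _ j ?_)
      have h2 : (((i : A) * ϖ : A) : ℂ_[p]) = (((i : ℕ) : A) : ℂ_[p]) * (ϖ : ℂ_[p]) := rfl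
      rw [h2]
      exact mul_mem hi hϖE
    · unfold yy
      rw [map_add, map_sub, RatFunc.algebraMap_X, RatFunc.algebraMap_C, RatFunc.algebraMap_C,
        RatFunc.algebraMap_C, map_mul, map_natCast]
      have h1 : (RatFunc.C ϖ : RatFunc A) ≠ 0 := by
        intro h2
        exact hϖ ((map_eq_zero _).1 h2)
      field_simp
  · refine ⟨C (i : A), 1, one_ne_zero, fun j => hC _ j hi, ?_, ?_⟩
    · intro j
      have h1 : (1 : Polynomial A) = C 1 := (C_1).symm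
      rw [h1]
      exact hC 1 j (one_mem _)
    · rw [map_one, mul_one, zero_add, RatFunc.algebraMap_C, map_natCast]

/-- sizes of the values of `χ τ` -/
theorem p1a_size {E₁ E : IntermediateField ℚ_[p] ℂ_[p]} {π₁ π : ℂ_[p]} {f₁ f M l : ℕ}
    (h₁ : LF E₁ π₁ f₁) (h : LF E π f) (hM : ‖π‖ ^ M = ‖π₁‖) (hl : l ∣ M) (hl2 : 2 ≤ l)
    {x x' k k' W g g' : ℂ_[p]} (hx : x ∈ E) (hx0 : x ≠ 0) (hx1 : ‖x‖ ≤ 1) (hx' : ‖x'‖ = 1)
    (hk : k ∈ E₁) (hk0 : k ≠ 0) (hk' : k' ∈ E₁) (hk0' : k' ≠ 0) (hW : W ∈ E) (hW0 : W ≠ 0)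
    (hg : ‖g‖ = ‖k‖) (hg' : ‖g'‖ = ‖k'‖) (heq : x * g' = x' * g * W ^ l) :
    ‖x‖ = 1 ∨ ‖x‖ ≤ ‖π‖ ^ 2 := by
  obtain ⟨t, ht⟩ := h.val x hx hx0
  obtain ⟨i, hi⟩ := h₁.val k hk hk0
  obtain ⟨j, hj⟩ := h₁.val k' hk' hk0'
  obtain ⟨c, hc⟩ := h.val W hW hW0
  obtain ⟨M', hM'⟩ := hl
  have h1 := congrArg norm heq
  rw [norm_mul, norm_mul, norm_mul, norm_pow, hg, hg', hx', one_mul, ht, hi, hj, hc, ← hM,
    ← zpow_natCast, ← zpow_mul, ← zpow_mul, ← zpow_natCast, ← zpow_mul, ← zpow_add₀ h.pos.ne',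
    ← zpow_add₀ h.pos.ne'] at h1
  have h2 : t + (M : ℤ) * j = (M : ℤ) * i + c * l := zpow_right_injective₀ h.pos h.lt.ne h1
  have h3 : (l : ℤ) ∣ t := by
    refine ⟨M' * i + c - M' * j, ?_⟩
    have h4 : (M : ℤ) = l * M' := by exact_mod_cast hM'
    rw [h4] at h2
    linear_combination h2
  obtain ⟨t', ht'⟩ := h3
  rcases lt_trichotomy t' 0 with h5 | h5 | h5
  · exfalso
    have h6 : t < 0 := by
      rw [ht']
      apply mul_neg_of_pos_of_neg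
      · exact_mod_cast (by omega : 0 < l)
      · exact h5
    have h7 : ‖π‖ ^ (0 : ℤ) < ‖π‖ ^ t := zpow_lt_zpow_right_of_lt_one₀ h.pos h.lt h6
    rw [← ht, zpow_zero] at h7
    exact absurd hx1 (not_le.2 h7)
  · left
    rw [ht, ht', h5, mul_zero, zpow_zero]
  · right
    rw [ht]
    have h6 : (2 : ℤ) ≤ t := by
      rw [ht']
      have h7 : (2 : ℤ) ≤ l := by exact_mod_cast hl2
      nlinarith
    have h7 : ‖π‖ ^ t ≤ ‖π‖ ^ (2 : ℤ) := zpow_le_zpow_right_of_le_one₀ h.pos h.lt.le h6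
    exact h7

end

theorem st_P1A (hDER : ST_DER) (hFDV : ST_FDV) (hEVH : ST_EVH) : ST_P1A := by
  intro p n _ hPP K a ϖ hϖ Em hEm hE₀ haEm hϖEm κ κ' P Q P' Q' hR hR' E₁ π₁ f₁ h₁ hEmE₁ E π f M h
    hE₁E hM0 hlM hπM ζ hζE hζ1 hζq hnv
  have hp : p.Prime := hPP.prime
  have hA : IsAlgClosed K.A := K.acl
  have hEmE : Em ≤ E := hEmE₁.trans hE₁E
  have hE₀E : K.E₀ ≤ E := hE₀.trans hEmE
  have hlM' : 4 * n + 2 ≤ M := Nat.le_of_dvd hM0 hlM
  have hn0 := hPP.npos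
  obtain ⟨hD, hDπ, hDtei, hD₁⟩ := p1a_package hDER hFDV h₁ h hE₁E (by omega) hπM
  have hDm : ∀ x ∈ Em, ‖x‖ ≤ 1 → Dv π f x = 0 := fun x hx => hD₁ x (hEmE₁ hx)
  have hnp : 2 * n < p := by
    have := hPP.big
    nlinarith
  have hresE : ∀ x ∈ E, ‖x‖ ≤ 1 → res x ∈ Fq p f := h.rs
  have hw : res ζ ∈ Fq p f := hresE ζ hζE hζ1
  -- values of polynomials over `Em` at `w`
  have hevF : ∀ G : Polynomial ℂ_[p], Int' Em G → (rd G).eval (res ζ) ∈ Fq p f := by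
    intro G hG
    obtain ⟨h2, h3, h4⟩ := p1a_eval E (p1a_int_mono hEmE hG) hζE hζ1
    rw [← h4]
    exact hresE _ h2 h3
  have hκE : ∀ b i, i ≤ 2 * n → κ b i ∈ E ∧ κ b i ≠ 0 := fun b i hi =>
    ⟨hEmE (hR b i hi).κE, (hR b i hi).κ0⟩
  have hκE' : ∀ b i, i ≤ 2 * n → κ' b i ∈ E ∧ κ' b i ≠ 0 := fun b i hi =>
    ⟨hEmE (hR' b i hi).κE, (hR' b i hi).κ0⟩
  let g : ℕ → RF p := fun i => res (p1a_u π (κ' false i)) * (rd (P' false i)).eval (res ζ) /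
    (rd (Q' false i)).eval (res ζ)
  have hgF : ∀ i, i ≤ n → g i ∈ Fq p f ∧ g i ≠ 0 := by
    intro i hi
    have hi2 : i ≤ 2 * n := by omega
    obtain ⟨h2, h3⟩ := p1a_res_u h (hκE' false i hi2).1 (hκE' false i hi2).2
    refine ⟨div_mem (mul_mem h3 (hevF _ (hR' false i hi2).cP)) (hevF _ (hR' false i hi2).cQ), ?_⟩
    exact div_ne_zero (mul_ne_zero h2 (hnv false i hi2).2.2.1) (hnv false i hi2).2.2.2
  refine ⟨fun b i => if i ≤ 2 * n then p1a_al π f (κ b i) else 0,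
    fun i j => if i ≤ n ∧ j ≤ n then g i / g j else 0, ?_, ?_, ?_⟩
  · intro b i
    show (if i ≤ 2 * n then p1a_al π f (κ b i) else 0) ∈ Fq p f
    split_ifs with hi
    · exact p1a_al_mem h hD (hκE b i hi).1 (hκE b i hi).2
    · exact zero_mem _
  · intro i j
    show (if i ≤ n ∧ j ≤ n then g i / g j else 0) ∈ Fq p f
    split_ifs with hij
    · exact div_mem (hgF i hij.1).1 (hgF j hij.2).1
    · exact zero_mem _
  intro z hz hz1 τ hτ hτA hτz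
  have haE : (a : ℂ_[p]) ∈ E := hEmE haEm
  have hϖE : (ϖ : ℂ_[p]) ∈ E := hEmE hϖEm
  set y : ℂ_[p] := (τ - (a : ℂ_[p])) / (ϖ : ℂ_[p]) with hy
  have hyE : y ∈ E := div_mem (sub_mem hτ haE) hϖE
  -- the reduction and the derivative of `y`
  have hπ2 : ‖π‖ ^ 2 < 1 := pow_lt_one₀ h.pos.le h.lt two_ne_zero
  have hδE : y - ζ - π * z ∈ E := sub_mem (sub_mem hyE hζE) (mul_mem h.mem hz)
  have hδ1 : ‖y - ζ - π * z‖ < 1 := lt_of_le_of_lt hτz hπ2
  have hπz : ‖π * z‖ < 1 := by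
    rw [norm_mul]
    calc ‖π‖ * ‖z‖ ≤ ‖π‖ * 1 := mul_le_mul_of_nonneg_left hz1 h.pos.le
      _ < 1 := by rw [mul_one]; exact h.lt
  have hsum : ‖π * z + (y - ζ - π * z)‖ < 1 :=
    (PadicComplex.isNonarchimedean p _ _).trans_lt (max_lt hπz hδ1)
  have hydec : y = ζ + (π * z + (y - ζ - π * z)) := by ring
  have hy1 : ‖y‖ ≤ 1 := by
    rw [hydec]
    exact p1a_norm_add hζ1 hsum.le
  have hyres : res y = res ζ := by
    rw [res_eq_iff hy1 hζ1]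
    have h2 : y - ζ = π * z + (y - ζ - π * z) := by ring
    rw [h2]
    exact hsum
  have hyD : Dv π f y = res z := by
    rw [hydec, hD.add _ hζE _ (add_mem (mul_mem h.mem hz) hδE) hζ1 hsum.le, hDtei ζ hζE hζq,
      hD.add _ (mul_mem h.mem hz) _ hδE hπz.le hδ1.le, hD.small _ hδE hτz,
      hD.mul _ h.mem _ hz h.lt.le hz1, hDπ, (res_eq_zero h.lt.le).2 h.lt]
    ring
  -- the polynomial
  have hEfin : FiniteDimensional ℚ_[p] E := h.fin
  have halg : IsAlgebraic ℚ_[p] τ := by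
    have h2 : IsAlgebraic ℚ_[p] (⟨τ, hτ⟩ : E) := Algebra.IsAlgebraic.isAlgebraic _
    exact h2.algebraMap
  obtain ⟨hχ0, hχn⟩ := K.χ0 τ halg hτA
  obtain ⟨r, hrE, hr0, hGint, hG0⟩ := p1a_scale E (K.χ τ) hχ0 (K.χE E hEfin hE₀E τ hτ hτA)
  set G : Polynomial ℂ_[p] := C r * K.χ τ with hGdef
  have hGn : ∀ j, n < j → G.coeff j = 0 := by
    intro j hj
    rw [hGdef, coeff_C_mul, coeff_eq_zero_of_natDegree_lt (lt_of_le_of_lt hχn hj), mul_zero]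
  have hχbn : (rd G).natDegree ≤ n := by
    rw [natDegree_le_iff_coeff_eq_zero]
    intro j hj
    rw [coeff_rd, hGn j hj, res_zero]
  have hddn : (p1a_dd π f G).natDegree ≤ n := by
    rw [natDegree_le_iff_coeff_eq_zero]
    intro j hj
    rw [p1a_coeff_dd, hGn j hj, p1a_Dv_zero]
  -- test values
  let v : Bool → ℕ → ℂ_[p] := fun b i => (if b = true then y else 0) + (i : ℂ_[p])
  have hvev : ∀ b i, ev K.A τ (cc K.A a ϖ b i) = v b i := fun b i => p1a_cc hEVH hA a ϖ hτA b i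
  have hvE : ∀ b i, v b i ∈ E := by
    intro b i
    show (if b = true then y else 0) + (i : ℂ_[p]) ∈ E
    refine add_mem ?_ (natCast_mem _ _)
    split_ifs
    · exact hyE
    · exact zero_mem _
  have hb1 : ∀ b : Bool, ‖(if b = true then y else 0 : ℂ_[p])‖ ≤ 1 := by
    intro b
    split_ifs
    · exact hy1
    · rw [norm_zero]
      exact zero_le_one
  have hbE : ∀ b : Bool, (if b = true then y else 0 : ℂ_[p]) ∈ E := by
    intro b
    split_ifs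
    · exact hyE
    · exact zero_mem _
  have hv1 : ∀ b i, ‖v b i‖ ≤ 1 := fun b i => p1a_norm_add (hb1 b) (p1a_norm_nat i)
  have hvres : ∀ b i, res (v b i) = pt (res ζ) b i := by
    intro b i
    show res ((if b = true then y else 0) + (i : ℂ_[p])) = (if b = true then res ζ else 0) + (i : RF p)
    rw [res_add (hb1 b) (p1a_norm_nat i), res_natCast]
    congr 1
    split_ifs
    · exact hyres
    · exact res_zero
  have hvD : ∀ b i, Dv π f (v b i) = if b = true then res z else 0 := by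
    intro b i
    show Dv π f ((if b = true then y else 0) + (i : ℂ_[p])) = _
    rw [hD.add _ (hbE b) _ (natCast_mem _ _) (hb1 b) (p1a_norm_nat i),
      hD₁ _ (natCast_mem _ _) (p1a_norm_nat i), add_zero]
    split_ifs
    · exact hyD
    · exact p1a_Dv_zero π f
  have hxE : ∀ b i, G.eval (v b i) ∈ E ∧ ‖G.eval (v b i)‖ ≤ 1 ∧
      res (G.eval (v b i)) = (rd G).eval (pt (res ζ) b i) := by
    intro b i
    rw [← hvres]
    exact p1a_eval E hGint (hvE b i) (hv1 b i)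
  have hov : ∀ b i, Ov K.A E (cc K.A a ϖ b i) := fun b i => p1a_cc_ov a ϖ hϖ haE hϖE b i
  -- the distinguished constant
  obtain ⟨c₀, hc₀n, hc₀⟩ : ∃ c₀ : ℕ, c₀ ≤ n ∧ (rd G).eval (pt (res ζ) false c₀) ≠ 0 := by
    by_contra hno
    push Not at hno
    apply hG0
    have hinj : Function.Injective (fun i : Fin (n + 1) => ((i : ℕ) : RF p)) := by
      intro i j hij
      have h2 : ((i : ℕ) : RF p) = ((j : ℕ) : RF p) := hij
      rw [CharP.natCast_eq_natCast (RF p) p] at h2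
      have h3 : (i : ℕ) = (j : ℕ) := Nat.ModEq.eq_of_lt_of_lt h2 (by omega) (by omega)
      exact Fin.ext h3
    refine eq_zero_of_natDegree_lt_card_of_eval_eq_zero (rd G) hinj ?_ ?_
    · intro i
      have h2 := hno i (by omega)
      have h3 : pt (res ζ) false (i : ℕ) = ((i : ℕ) : RF p) := by simp [pt]
      rw [h3] at h2
      exact h2
    · rw [Fintype.card_fin]
      omega
  have hc₀2 : c₀ ≤ 2 * n := by omega
  have hx₀1 : ‖G.eval (v false c₀)‖ = 1 := by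
    rw [norm_eq_one_iff (hxE false c₀).2.1, (hxE false c₀).2.2]
    exact hc₀
  have hx₀0 : G.eval (v false c₀) ≠ 0 := by
    intro h2
    rw [h2, norm_zero] at hx₀1
    exact zero_ne_one hx₀1
  -- nonvanishing at `res y`
  have hPy : ∀ b i, i ≤ 2 * n → (rd (P b i)).eval (res y) ≠ 0 ∧ (rd (Q b i)).eval (res y) ≠ 0 ∧
      (rd (P' b i)).eval (res y) ≠ 0 ∧ (rd (Q' b i)).eval (res y) ≠ 0 := by
    rw [hyres]
    exact hnv
  have hHp := fun b i (hi : i ≤ 2 * n) => p1a_H (A := K.A) hEmE (hR b i hi) hτA hyE hy1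
    (hPy b i hi).1 (hPy b i hi).2.1
  have hHl := fun b i (hi : i ≤ 2 * n) => p1a_H (A := K.A) hEmE (hR' b i hi) hτA hyE hy1
    (hPy b i hi).2.2.1 (hPy b i hi).2.2.2
  have hHln : ∀ b i, i ≤ 2 * n →
      ‖ev K.A τ (K.H (4 * n + 2) (cc K.A a ϖ b i))‖ = ‖κ' b i‖ := by
    intro b i hi
    obtain ⟨_, _, e3, e4, _, _, e7⟩ := hHl b i hi
    have h2 := congrArg norm e7
    rw [norm_mul, norm_mul, e3, e4, mul_one, mul_one] at h2
    exact h2
  have hsize : ∀ b i, i ≤ 2 * n → G.eval (v b i) ≠ 0 →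
      ‖G.eval (v b i)‖ = 1 ∨ ‖G.eval (v b i)‖ ≤ ‖π‖ ^ 2 := by
    intro b i hi hx0
    obtain ⟨W, hW, hW0, hWeq⟩ := p1a_kum K hEfin hE₀E hτ hτA (hov b i) (hov false c₀)
      (m := 4 * n + 2) (by omega) r (by rw [hvev]; exact hx0) (by rw [hvev]; exact hx₀0)
    rw [hvev, hvev] at hWeq
    exact p1a_size h₁ h hπM hlM (by omega) (hxE b i).1 hx0 (hxE b i).2.1 hx₀1
      (hEmE₁ (hR' b i hi).κE) (hR' b i hi).κ0 (hEmE₁ (hR' false c₀ hc₀2).κE) (hR' false c₀ hc₀2).κ0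
      hW hW0 (hHln b i hi) (hHln false c₀ hc₀2) hWeq
  -- the additive constant
  set s : RF p := p1a_al π f (G.eval (v false c₀)) -
    p1a_al π f (ev K.A τ (K.H p (cc K.A a ϖ false c₀))) with hs
  have hsF : s ∈ Fq p f := sub_mem (p1a_al_mem h hD (hxE false c₀).1 hx₀0)
    (p1a_al_mem h hD (hHp false c₀ hc₀2).1 (hHp false c₀ hc₀2).2.1)
  have hal : ∀ b i, i ≤ 2 * n → G.eval (v b i) ≠ 0 → p1a_al π f (G.eval (v b i)) =
      s + (p1a_al π f (κ b i) + res z *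
        ((derivative (rd (P b i))).eval (res ζ) / (rd (P b i)).eval (res ζ) -
          (derivative (rd (Q b i))).eval (res ζ) / (rd (Q b i)).eval (res ζ))) := by
    intro b i hi hx0
    obtain ⟨W, hW, hW0, hWeq⟩ := p1a_kum K hEfin hE₀E hτ hτA (hov b i) (hov false c₀)
      (m := p) hp.pos r (by rw [hvev]; exact hx0) (by rw [hvev]; exact hx₀0)
    rw [hvev, hvev] at hWeq
    have h2 := congrArg (p1a_al π f) hWeq
    rw [p1a_al_mul h hD (hxE b i).1 hx0 (hHp false c₀ hc₀2).1 (hHp false c₀ hc₀2).2.1,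
      p1a_al_mul h hD (mul_mem (hxE false c₀).1 (hHp b i hi).1)
        (mul_ne_zero hx₀0 (hHp b i hi).2.1) (pow_mem hW p) (pow_ne_zero p hW0),
      p1a_al_mul h hD (hxE false c₀).1 hx₀0 (hHp b i hi).1 (hHp b i hi).2.1,
      p1a_al_pow h hD hW hW0, CharP.cast_eq_zero, zero_mul, add_zero] at h2
    have h3 := p1a_al_H (A := K.A) h hD hEmE hDm (hR b i hi) hτA hyE hy1 (hPy b i hi).1
      (hPy b i hi).2.1
    have h4 : Dv π f ((τ - (a : ℂ_[p])) / (ϖ : ℂ_[p])) = res z := hyD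
    have h5 : res ((τ - (a : ℂ_[p])) / (ϖ : ℂ_[p])) = res ζ := hyres
    rw [h4, h5] at h3
    rw [← h3, hs]
    linear_combination h2
  refine ⟨rd G, p1a_dd π f G - C s * rd G, ⟨hG0, r, hr0, ?_⟩, ?_, ?_, ⟨hχbn, ?_, ?_⟩, ?_⟩
  · intro j
    have h2 := (hGint j).2
    rw [hGdef, coeff_C_mul] at h2
    refine ⟨h2, ?_⟩
    rw [coeff_rd, hGdef, coeff_C_mul]
  · intro j
    rw [coeff_rd]
    exact hresE _ (hGint j).1 (hGint j).2
  · intro j
    rw [coeff_sub, coeff_C_mul, coeff_rd, p1a_coeff_dd]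
    exact sub_mem (hD.mem _ (hGint j).1 (hGint j).2)
      (mul_mem hsF (hresE _ (hGint j).1 (hGint j).2))
  · refine (natDegree_sub_le _ _).trans (max_le hddn ?_)
    exact (natDegree_C_mul_le _ _).trans hχbn
  · intro b i hi
    have h2 := p1a_D_eval hD hGint (hvE b i) (hv1 b i)
    rw [hvres, hvD] at h2
    have h3 : Dv π f (G.eval (v b i)) = (rd G).eval (pt (res ζ) b i) *
        (s + (p1a_al π f (κ b i) + res z *
        ((derivative (rd (P b i))).eval (res ζ) / (rd (P b i)).eval (res ζ) -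
          (derivative (rd (Q b i))).eval (res ζ) / (rd (Q b i)).eval (res ζ)))) := by
      rw [← (hxE b i).2.2]
      by_cases hx0 : G.eval (v b i) = 0
      · rw [hx0, p1a_Dv_zero, res_zero, zero_mul]
      · rw [p1a_D_al h hD (hxE b i).1 (hsize b i hi hx0), hal b i hi hx0]
    rw [h3] at h2
    rw [eval_sub, eval_mul, eval_C]
    show _ = ((if i ≤ 2 * n then p1a_al π f (κ b i) else 0) + _) * _
    rw [if_pos hi]
    have h4 : (if b = true then res z * (derivative (rd G)).eval (pt (res ζ) b i) else 0) =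
        (if b = true then res z else 0) * (derivative (rd G)).eval (pt (res ζ) b i) := by
      split_ifs
      · rfl
      · rw [zero_mul]
    rw [h4]
    linear_combination -h2
  · intro i j hi hj hxi hxj
    have hpt : ∀ i : ℕ, pt (res ζ) false i = ((i : ℕ) : RF p) := by
      intro i
      simp [pt]
    rw [← hpt i] at hxi
    rw [← hpt j] at hxj
    rw [← hpt i, ← hpt j]
    have hi2 : i ≤ 2 * n := by omega
    have hj2 : j ≤ 2 * n := by omega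
    have hi1 : ‖G.eval (v false i)‖ = 1 := by
      rw [norm_eq_one_iff (hxE false i).2.1, (hxE false i).2.2]
      exact hxi
    have hj1 : ‖G.eval (v false j)‖ = 1 := by
      rw [norm_eq_one_iff (hxE false j).2.1, (hxE false j).2.2]
      exact hxj
    have hi0 : G.eval (v false i) ≠ 0 := by
      intro h2
      rw [h2, norm_zero] at hi1
      exact zero_ne_one hi1
    have hj0 : G.eval (v false j) ≠ 0 := by
      intro h2
      rw [h2, norm_zero] at hj1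
      exact zero_ne_one hj1
    obtain ⟨W, hW, hW0, hWeq⟩ := p1a_kum K hEfin hE₀E hτ hτA (hov false i) (hov false j)
      (m := 4 * n + 2) (by omega) r (by rw [hvev]; exact hi0) (by rw [hvev]; exact hj0)
    rw [hvev, hvev] at hWeq
    obtain ⟨ei1, ei2, _⟩ := hHl false i hi2
    obtain ⟨ej1, ej2, _⟩ := hHl false j hj2
    have h2 := congrArg (p1a_u π) hWeq
    rw [p1a_u_mul h (hxE false i).1 hi0 ej1 ej2,
      p1a_u_mul h (mul_mem (hxE false j).1 ei1) (mul_ne_zero hj0 ei2) (pow_mem hW _)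
        (pow_ne_zero _ hW0),
      p1a_u_mul h (hxE false j).1 hj0 ei1 ei2, p1a_u_pow h hW hW0, p1a_u_one h hi1,
      p1a_u_one h hj1] at h2
    obtain ⟨_, _, _, ui1, ui2⟩ := p1a_u_spec h ei1 ei2
    obtain ⟨_, _, _, uj1, uj2⟩ := p1a_u_spec h ej1 ej2
    obtain ⟨_, _, _, uw1, uw2⟩ := p1a_u_spec h hW hW0
    obtain ⟨rw1, rw2⟩ := p1a_res_u h hW hW0
    have h3 := congrArg res h2
    rw [res_mul (hxE false i).2.1 uj2.le, res_mul (p1a_norm_mul (hxE false j).2.1 ui2.le)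
      (p1a_norm_pow uw2.le _), res_mul (hxE false j).2.1 ui2.le, res_pow uw2.le,
      (hxE false i).2.2, (hxE false j).2.2] at h3
    have hgi : res (p1a_u π (ev K.A τ (K.H (4 * n + 2) (cc K.A a ϖ false i)))) = g i := by
      have h4 := p1a_u_H (A := K.A) h hEmE (hR' false i hi2) hτA hyE hy1 (hPy false i hi2).2.2.1
        (hPy false i hi2).2.2.2
      have h5 : res ((τ - (a : ℂ_[p])) / (ϖ : ℂ_[p])) = res ζ := hyres
      rw [h5] at h4
      exact h4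
    have hgj : res (p1a_u π (ev K.A τ (K.H (4 * n + 2) (cc K.A a ϖ false j)))) = g j := by
      have h4 := p1a_u_H (A := K.A) h hEmE (hR' false j hj2) hτA hyE hy1 (hPy false j hj2).2.2.1
        (hPy false j hj2).2.2.2
      have h5 : res ((τ - (a : ℂ_[p])) / (ϖ : ℂ_[p])) = res ζ := hyres
      rw [h5] at h4
      exact h4
    rw [hgi, hgj] at h3
    refine ⟨res (p1a_u π W), rw2, rw1, ?_⟩
    show _ = (if i ≤ n ∧ j ≤ n then g i / g j else 0) * _ * _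
    rw [if_pos ⟨hi, hj⟩]
    have hgj0 := (hgF j hj).2
    field_simp
    linear_combination h3

end Pool.Agent.Helper60.FF
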