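import Pool.Agent.Helper60.FF.DefsB

/-!
# RAMX: extensions with prescribed residue field and ramification
-/

set_option autoImplicit false

namespace Pool.Agent.Helper60.FF

open Polynomial

section

variable {p : ℕ} [hp : Fact p.Prime]

/-! ### sums -/

theorem ramx_sum_le {ι : Type} (s : Finset ι) (f : ι → ℂ_[p]) {C : ℝ} (hC : 0 ≤ C)
    (h : ∀ i ∈ s, ‖f i‖ ≤ C) : ‖∑ i ∈ s, f i‖ ≤ C := by
  classical
  induction s using Finset.induction_on with
  | empty => simpa using hC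
  | insert a s ha ih =>
    rw [Finset.sum_insert ha]
    refine (PadicComplex.isNonarchimedean p _ _).trans (max_le ?_ ?_)
    · exact h a (Finset.mem_insert_self _ _)
    · exact ih fun i hi => h i (Finset.mem_insert_of_mem hi)

theorem ramx_sum_lt {ι : Type} (s : Finset ι) (f : ι → ℂ_[p]) {C : ℝ} (hC : 0 < C)
    (h : ∀ i ∈ s, ‖f i‖ < C) : ‖∑ i ∈ s, f i‖ < C := by
  classical
  induction s using Finset.induction_on with
  | empty => simpa using hC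
  | insert a s ha ih =>
    rw [Finset.sum_insert ha]
    refine (PadicComplex.isNonarchimedean p _ _).trans_lt (max_lt ?_ ?_)
    · exact h a (Finset.mem_insert_self _ _)
    · exact ih fun i hi => h i (Finset.mem_insert_of_mem hi)

theorem ramx_add_eq {x y : ℂ_[p]} (h : ‖y‖ < ‖x‖) : ‖x + y‖ = ‖x‖ := by
  apply le_antisymm
  · exact (PadicComplex.isNonarchimedean p _ _).trans (max_le le_rfl h.le)
  · have h1 : ‖x‖ ≤ max ‖x + y‖ ‖-y‖ := by
      have := PadicComplex.isNonarchimedean p (x + y) (-y)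
      rwa [add_neg_cancel_right] at this
    rw [norm_neg] at h1
    rcases le_max_iff.1 h1 with h2 | h2
    · exact h2
    · exact absurd h2 (not_le.2 h)

theorem ramx_sum_eq {ι : Type} [DecidableEq ι] (s : Finset ι) (f : ι → ℂ_[p]) {i₀ : ι} (hi : i₀ ∈ s)
    (h0 : f i₀ ≠ 0) (h : ∀ i ∈ s, i ≠ i₀ → ‖f i‖ < ‖f i₀‖) : ‖∑ i ∈ s, f i‖ = ‖f i₀‖ := by
  rw [← Finset.add_sum_erase s f hi]
  apply ramx_add_eq
  refine ramx_sum_lt _ _ (norm_pos_iff.2 h0) ?_
  intro i hi'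
  exact h i (Finset.mem_of_mem_erase hi') (Finset.ne_of_mem_erase hi')

theorem ramx_res_sum {ι : Type} (s : Finset ι) (f : ι → ℂ_[p]) (h : ∀ i ∈ s, ‖f i‖ ≤ 1) :
    res (∑ i ∈ s, f i) = ∑ i ∈ s, res (f i) := by
  classical
  induction s using Finset.induction_on with
  | empty => simpa using res_zero
  | insert a s ha ih =>
    have h1 : ∀ i ∈ s, ‖f i‖ ≤ 1 := fun i hi => h i (Finset.mem_insert_of_mem hi)
    rw [Finset.sum_insert ha, Finset.sum_insert ha, res_add (h a (Finset.mem_insert_self _ _))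
      (ramx_sum_le s f zero_le_one h1), ih h1]

/-! ### roots of polynomials -/

theorem ramx_root (P : Polynomial ℂ_[p]) (hP : P.Monic) (e : ℂ_[p]) (he : ‖P.eval e‖ < 1) :
    ∃ θ : ℂ_[p], P.eval θ = 0 ∧ ‖e - θ‖ < 1 := by
  by_contra hno
  push Not at hno
  have hs : P.Splits := IsAlgClosed.splits P
  have h1 := hs.eq_prod_roots_of_monic hP
  have h2 : P.eval e = (P.roots.map fun a => e - a).prod := by
    conv_lhs => rw [h1]
    rw [Polynomial.eval_multiset_prod, Multiset.map_map]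
    congr 1
    apply Multiset.map_congr rfl
    intro a _
    simp
  have h3 : ∀ s : Multiset ℂ_[p], (∀ a ∈ s, 1 ≤ ‖e - a‖) → 1 ≤ ‖(s.map fun a => e - a).prod‖ := by
    intro s
    induction s using Multiset.induction_on with
    | empty => intro _; simp
    | cons a s ih =>
      intro h
      rw [Multiset.map_cons, Multiset.prod_cons, norm_mul]
      exact one_le_mul_of_one_le_of_one_le (h a (Multiset.mem_cons_self _ _))
        (ih fun b hb => h b (Multiset.mem_cons_of_mem hb))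
  have h4 := h3 P.roots (by
    intro a ha
    exact hno a (mem_roots'.1 ha).2)
  rw [← h2] at h4
  exact absurd he (not_lt.2 h4)

/-! ### adjunction of an element -/

theorem ramx_adjoin (E : IntermediateField ℚ_[p] ℂ_[p]) (hE : FiniteDimensional ℚ_[p] E)
    (θ : ℂ_[p]) (μ : Polynomial E) (hμ : μ.Monic) (hθ : aeval θ μ = 0) :
    ∃ E' : IntermediateField ℚ_[p] ℂ_[p], FiniteDimensional ℚ_[p] E' ∧ E ≤ E' ∧ θ ∈ E' ∧
      ∀ x ∈ E', ∃ a : ℕ → ℂ_[p], (∀ i, a i ∈ E) ∧ x = ∑ i ∈ Finset.range μ.natDegree, a i * θ ^ i := by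
  have hint : IsIntegral E θ := ⟨μ, hμ, hθ⟩
  have hfin : FiniteDimensional E (IntermediateField.adjoin E {θ}) :=
    IntermediateField.adjoin.finiteDimensional hint
  have hfin2 : FiniteDimensional ℚ_[p] (IntermediateField.adjoin E {θ}) :=
    FiniteDimensional.trans ℚ_[p] E _
  refine ⟨(IntermediateField.adjoin E {θ}).restrictScalars ℚ_[p], hfin2, ?_, ?_, ?_⟩
  · intro x hx
    exact (IntermediateField.adjoin E {θ}).algebraMap_mem ⟨x, hx⟩
  · exact IntermediateField.mem_adjoin_simple_self E θ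
  · intro x hx
    have hx1 : x ∈ IntermediateField.adjoin E {θ} := hx
    have hx2 : x ∈ (IntermediateField.adjoin E {θ}).toSubalgebra := hx1
    rw [IntermediateField.adjoin_simple_toSubalgebra_of_isAlgebraic hint.isAlgebraic,
      Algebra.adjoin_singleton_eq_range_aeval] at hx2
    obtain ⟨P, hP⟩ := hx2
    have hP' : aeval θ P = x := hP
    have h1 : aeval θ (P %ₘ μ) = x := by
      have h2 := modByMonic_add_div P μ
      rw [← hP', ← h2]
      rw [map_add, map_mul, hθ, zero_mul, add_zero, h2]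
    refine ⟨fun i => ((P %ₘ μ).coeff i : E), fun i => ((P %ₘ μ).coeff i).2, ?_⟩
    rcases eq_or_ne μ.natDegree 0 with h0 | h0
    · have h3 : μ = 1 := hμ.natDegree_eq_zero.1 h0
      rw [h3, map_one] at hθ
      exact absurd hθ one_ne_zero
    · have h3 : (P %ₘ μ).natDegree < μ.natDegree := natDegree_modByMonic_lt P hμ (by
        intro h
        rw [h, natDegree_one] at h0
        exact h0 rfl)
      rw [← h1, aeval_eq_sum_range' h3]
      rfl

/-! ### Teichmueller elements -/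

theorem ramx_pow {c : ℝ} (hc0 : 0 < c) (hc1 : c < 1) (hpc : ‖(p : ℂ_[p])‖ ≤ c) {a b : ℂ_[p]}
    (ha : ‖a‖ ≤ 1) (hb : ‖b‖ ≤ 1) {n : ℕ} (hn : 1 ≤ n) (h : ‖a - b‖ ≤ c ^ n) :
    ‖a ^ p - b ^ p‖ ≤ c ^ (n + 1) := by
  have hd : ‖a - b‖ ≤ 1 := h.trans (pow_le_one₀ hc0.le hc1.le)
  obtain ⟨r, hr⟩ := exists_add_pow_prime_eq hp.out (⟨b, hb⟩ : OO p) (⟨a - b, hd⟩ : OO p)
  have h1 : a ^ p = b ^ p + (a - b) ^ p + p * b * (a - b) * (r : ℂ_[p]) := by
    have h2 := congrArg Subtype.val hr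
    have h3 : ((b : ℂ_[p]) + (a - b)) ^ p = b ^ p + (a - b) ^ p + p * b * (a - b) * (r : ℂ_[p]) := h2
    rwa [add_sub_cancel] at h3
  have hr1 : ‖(r : ℂ_[p])‖ ≤ 1 := r.2
  have h4 : a ^ p - b ^ p = (a - b) ^ p + p * b * (a - b) * (r : ℂ_[p]) := by
    rw [h1]
    ring
  rw [h4]
  refine (PadicComplex.isNonarchimedean p _ _).trans (max_le ?_ ?_)
  · rw [norm_pow]
    calc ‖a - b‖ ^ p ≤ (c ^ n) ^ p := pow_le_pow_left₀ (norm_nonneg _) h p
      _ = c ^ (n * p) := (pow_mul _ _ _).symm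
      _ ≤ c ^ (n + 1) := by
        apply pow_le_pow_of_le_one hc0.le hc1.le
        have := hp.out.two_le
        nlinarith
  · rw [norm_mul, norm_mul, norm_mul]
    have h5 : ‖(p : ℂ_[p])‖ * ‖b‖ ≤ c * 1 := mul_le_mul hpc hb (norm_nonneg _) hc0.le
    calc ‖(p : ℂ_[p])‖ * ‖b‖ * ‖a - b‖ * ‖(r : ℂ_[p])‖ ≤ (c * 1) * c ^ n * 1 := by
          apply mul_le_mul _ hr1 (norm_nonneg _) (by positivity)
          exact mul_le_mul h5 h (norm_nonneg _) (by positivity)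
      _ = c ^ (n + 1) := by ring

theorem ramx_pow_iter {c : ℝ} (hc0 : 0 < c) (hc1 : c < 1) (hpc : ‖(p : ℂ_[p])‖ ≤ c) {a b : ℂ_[p]}
    (ha : ‖a‖ ≤ 1) (hb : ‖b‖ ≤ 1) (h : ‖a - b‖ ≤ c) (n : ℕ) :
    ‖a ^ (p ^ n) - b ^ (p ^ n)‖ ≤ c ^ (n + 1) := by
  induction n with
  | zero => simpa using h
  | succ n ih =>
    rw [pow_succ p n, pow_mul, pow_mul]
    refine ramx_pow hc0 hc1 hpc ?_ ?_ (by omega) ih
    · rw [norm_pow]
      exact pow_le_one₀ (norm_nonneg _) ha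
    · rw [norm_pow]
      exact pow_le_one₀ (norm_nonneg _) hb

/-- finite extensions of `ℚ_p` are closed -/
theorem ramx_closed (E : IntermediateField ℚ_[p] ℂ_[p]) (hE : FiniteDimensional ℚ_[p] E) :
    IsClosed (E : Set ℂ_[p]) := by
  have h : FiniteDimensional ℚ_[p] (Subalgebra.toSubmodule E.toSubalgebra) := hE
  exact Submodule.closed_of_finiteDimensional (Subalgebra.toSubmodule E.toSubalgebra)

theorem ramx_tei (E : IntermediateField ℚ_[p] ℂ_[p]) (hE : FiniteDimensional ℚ_[p] E) {f : ℕ}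
    (hf : 0 < f) {x : ℂ_[p]} (hx : x ∈ E) (hx1 : ‖x‖ ≤ 1) (hres : res x ^ (p ^ f) = res x) :
    ∃ z ∈ E, z ^ (p ^ f) = z ∧ ‖z‖ ≤ 1 ∧ res z = res x := by
  have hq : 1 < p ^ f := Nat.one_lt_pow hf.ne' hp.out.one_lt
  have hxq : ‖x ^ (p ^ f)‖ ≤ 1 := by
    rw [norm_pow]
    exact pow_le_one₀ (norm_nonneg _) hx1
  have h1 : ‖x ^ (p ^ f) - x‖ < 1 := by
    rw [← res_eq_iff hxq hx1, res_pow hx1, hres]
  have hmon : (X ^ (p ^ f) - X : Polynomial ℂ_[p]).Monic := by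
    apply monic_X_pow_sub
    rw [degree_X]
    exact_mod_cast hq
  obtain ⟨z, hz, hxz⟩ := ramx_root (X ^ (p ^ f) - X : Polynomial ℂ_[p]) hmon x (by
    simpa using h1)
  have hzq : z ^ (p ^ f) = z := by
    have h2 : z ^ (p ^ f) - z = 0 := by simpa using hz
    exact sub_eq_zero.1 h2
  have hz1 : ‖z‖ ≤ 1 := by
    have h2 : z = x + -(x - z) := by ring
    rw [h2]
    refine (PadicComplex.isNonarchimedean p _ _).trans (max_le hx1 ?_)
    rw [norm_neg]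
    exact hxz.le
  have hpn : ‖(p : ℂ_[p])‖ < 1 := by
    rw [norm_p]
    exact inv_lt_one_of_one_lt₀ (by exact_mod_cast hp.out.one_lt)
  have hpp : 0 < ‖(p : ℂ_[p])‖ := by
    rw [norm_p]
    exact inv_pos.2 (by exact_mod_cast hp.out.pos)
  set c : ℝ := max ‖(p : ℂ_[p])‖ ‖x - z‖ with hc
  have hc0 : 0 < c := lt_max_of_lt_left hpp
  have hc1 : c < 1 := max_lt hpn hxz
  have hzn : ∀ n : ℕ, z ^ (p ^ (f * n)) = z := by
    intro n
    induction n with
    | zero => simp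
    | succ n ih => rw [Nat.mul_succ, pow_add, pow_mul, ih, hzq]
  have hzE : z ∈ (E : Set ℂ_[p]) := by
    rw [← (ramx_closed E hE).closure_eq, Metric.mem_closure_iff]
    intro ε hε
    obtain ⟨n, hn⟩ := exists_pow_lt_of_lt_one hε hc1
    refine ⟨x ^ (p ^ (f * n)), pow_mem hx _, ?_⟩
    rw [dist_comm, dist_eq_norm]
    have h3 := ramx_pow_iter hc0 hc1 (le_max_left _ _) hx1 hz1 (le_max_right _ _) (f * n)
    rw [hzn] at h3
    refine (h3.trans ?_).trans_lt hn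
    apply pow_le_pow_of_le_one hc0.le hc1.le
    nlinarith
  refine ⟨z, hzE, hzq, hz1, ?_⟩
  rw [res_eq_iff hz1 hx1, ← norm_neg, neg_sub]
  exact hxz

/-! ### the unramified part -/

theorem ramx_unr (hRFA : ST_RFA) (E₁ : IntermediateField ℚ_[p] ℂ_[p]) (π₁ : ℂ_[p]) (f₁ : ℕ)
    (h : LF E₁ π₁ f₁) (f : ℕ) (hf : 0 < f) (hdiv : f₁ ∣ f) :
    ∃ W : IntermediateField ℚ_[p] ℂ_[p], E₁ ≤ W ∧ LF W π₁ f := by
  obtain ⟨_, _, hcard, hle⟩ := hRFA p
  have hkK : Fq p f₁ ≤ Fq p f := (hle f₁ f h.fpos hf).2 hdiv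
  have hfinK : Finite (Fq p f) := (hcard f hf).1
  obtain ⟨g, hg⟩ := IsCyclic.exists_monoid_generator (α := (Fq p f)ˣ)
  set η : RF p := ((g : Fq p f) : RF p) with hη
  have hηK : η ∈ Fq p f := (g : Fq p f).2
  have hgen : ∀ ξ : RF p, ξ ^ (p ^ f) = ξ → ξ ≠ 0 → ∃ n : ℕ, η ^ n = ξ := by
    intro ξ hξ hξ0
    have h1 : (⟨ξ, hξ⟩ : Fq p f) ≠ 0 := by
      intro h2
      exact hξ0 (congrArg Subtype.val h2)
    obtain ⟨n, hn⟩ := hg (Units.mk0 _ h1)
    refine ⟨n, ?_⟩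
    have h2 : g ^ n = Units.mk0 _ h1 := hn
    have h3 := congrArg (fun u : (Fq p f)ˣ => (((u : Fq p f)) : RF p)) h2
    simpa using h3
  have hint : IsIntegral (Fq p f₁) η := by
    have hq : 1 < p ^ f := Nat.one_lt_pow hf.ne' hp.out.one_lt
    refine ⟨X ^ (p ^ f) - X, ?_, ?_⟩
    · apply monic_X_pow_sub
      rw [degree_X]
      exact_mod_cast hq
    · rw [← aeval_def, map_sub, map_pow, aeval_X, sub_eq_zero]
      exact hηK
  set d := (minpoly (Fq p f₁) η).natDegree with hd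
  have hdpos : 0 < d := minpoly.natDegree_pos hint
  have ht : ∀ ξ : Fq p f₁, ∃ z : E₁, ‖(z : ℂ_[p])‖ ≤ 1 ∧ res (z : ℂ_[p]) = ξ := by
    intro ξ
    obtain ⟨z, hz, _, hz1, hz2⟩ := h.tei ξ ξ.2
    exact ⟨⟨z, hz⟩, hz1, hz2⟩
  choose t ht1 ht2 using ht
  let c : ℕ → Fq p f₁ := fun i => (minpoly (Fq p f₁) η).coeff i
  let Q : Polynomial E₁ := ∑ i : Fin d, C (t (c i)) * X ^ (i : ℕ)
  have hQ : Q.degree < d := degree_sum_fin_lt _
  let μ : Polynomial E₁ := X ^ d + Q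
  have hμ : μ.Monic := monic_X_pow_add hQ
  have hμd : μ.natDegree = d := by
    have h1 : Q.degree < (X ^ d : Polynomial E₁).degree := by
      rw [degree_X_pow]
      exact hQ
    rw [natDegree_add_eq_left_of_degree_lt h1, natDegree_X_pow]
  have hμe : ∀ e : ℂ_[p], (μ.map (algebraMap E₁ ℂ_[p])).eval e =
      e ^ d + ∑ i : Fin d, (t (c i) : ℂ_[p]) * e ^ (i : ℕ) := by
    intro e
    simp only [μ, Q, Polynomial.map_add, Polynomial.map_pow, map_X, Polynomial.map_sum,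
      Polynomial.map_mul, map_C, eval_add, eval_pow, eval_X, eval_finsetSum, eval_mul, eval_C]
    rfl
  obtain ⟨e, he1, heη⟩ := res_surj η
  have hpow : ∀ (y : ℂ_[p]) (n : ℕ), ‖y‖ ≤ 1 → ‖y ^ n‖ ≤ 1 := by
    intro y n hy
    rw [norm_pow]
    exact pow_le_one₀ (norm_nonneg _) hy
  have hmul : ∀ y y' : ℂ_[p], ‖y‖ ≤ 1 → ‖y'‖ ≤ 1 → ‖y * y'‖ ≤ 1 := by
    intro y y' hy hy'
    rw [norm_mul]
    exact mul_le_one₀ hy (norm_nonneg _) hy'
  have hev : ‖(μ.map (algebraMap E₁ ℂ_[p])).eval e‖ < 1 := by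
    have hS : ∀ i ∈ (Finset.univ : Finset (Fin d)), ‖(t (c i) : ℂ_[p]) * e ^ (i : ℕ)‖ ≤ 1 :=
      fun i _ => hmul _ _ (ht1 _) (hpow _ _ he1)
    have hS1 : ‖∑ i : Fin d, (t (c i) : ℂ_[p]) * e ^ (i : ℕ)‖ ≤ 1 :=
      ramx_sum_le _ _ zero_le_one hS
    have hle1 : ‖(μ.map (algebraMap E₁ ℂ_[p])).eval e‖ ≤ 1 := by
      rw [hμe]
      exact (PadicComplex.isNonarchimedean p _ _).trans (max_le (hpow _ _ he1) hS1)
    rw [← res_eq_zero hle1, hμe, res_add (hpow _ _ he1) hS1, res_pow he1, ramx_res_sum _ _ hS, heη]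
    have h1 : ∀ i : Fin d, res ((t (c i) : ℂ_[p]) * e ^ (i : ℕ)) = (c i : RF p) * η ^ (i : ℕ) := by
      intro i
      rw [res_mul (ht1 _) (hpow _ _ he1), ht2, res_pow he1, heη]
    rw [Finset.sum_congr rfl fun i _ => h1 i]
    have h2 : aeval η (minpoly (Fq p f₁) η) = 0 := minpoly.aeval _ _
    rw [aeval_eq_sum_range, ← hd, Finset.sum_range_succ] at h2
    have h3 : (minpoly (Fq p f₁) η).coeff d = 1 := (minpoly.monic hint).coeff_natDegree
    rw [h3, one_smul, Finset.sum_range, add_comm] at h2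
    exact h2
  obtain ⟨θ, hθ, heθ⟩ := ramx_root _ (hμ.map _) e hev
  have hθ1 : ‖θ‖ ≤ 1 := by
    have h2 : θ = e + -(e - θ) := by ring
    rw [h2]
    refine (PadicComplex.isNonarchimedean p _ _).trans (max_le he1 ?_)
    rw [norm_neg]
    exact heθ.le
  have hθη : res θ = η := by
    rw [← heη]
    exact ((res_eq_iff he1 hθ1).2 heθ).symm
  have hθ' : aeval θ μ = 0 := by
    rw [← eval_map_algebraMap]
    exact hθ
  obtain ⟨W, hWfin, hEW, hθW, hW⟩ := ramx_adjoin E₁ h.fin θ μ hμ hθ'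
  rw [hμd] at hW
  -- the norm
  have hlin := linearIndependent_pow (K := Fq p f₁) η
  have hnorm : ∀ a : ℕ → ℂ_[p], (∀ i, a i ∈ E₁) → ∀ i₀, i₀ < d → a i₀ ≠ 0 →
      (∀ i < d, ‖a i‖ ≤ ‖a i₀‖) → ‖∑ i ∈ Finset.range d, a i * θ ^ i‖ = ‖a i₀‖ := by
    intro a ha i₀ hi₀ h0 hmax
    have hb1 : ∀ i ∈ Finset.range d, ‖a i / a i₀‖ ≤ 1 := by
      intro i hi
      rw [norm_div]
      exact div_le_one_of_le₀ (hmax i (Finset.mem_range.1 hi)) (norm_nonneg _)
    have hb2 : ∀ i ∈ Finset.range d, ‖a i / a i₀ * θ ^ i‖ ≤ 1 := fun i hi =>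
      hmul _ _ (hb1 i hi) (hpow _ _ hθ1)
    have e1 : ∑ i ∈ Finset.range d, a i * θ ^ i = a i₀ * ∑ i ∈ Finset.range d, a i / a i₀ * θ ^ i := by
      rw [Finset.mul_sum]
      refine Finset.sum_congr rfl fun i _ => ?_
      field_simp
    have hle1 : ‖∑ i ∈ Finset.range d, a i / a i₀ * θ ^ i‖ ≤ 1 :=
      ramx_sum_le _ _ zero_le_one hb2
    have h1 : ‖∑ i ∈ Finset.range d, a i / a i₀ * θ ^ i‖ = 1 := by
      rw [norm_eq_one_iff hle1, ramx_res_sum _ _ hb2]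
      intro h2
      have h3 : ∀ i ∈ Finset.range d, res (a i / a i₀ * θ ^ i) = res (a i / a i₀) * η ^ i := by
        intro i hi
        rw [res_mul (hb1 i hi) (hpow _ _ hθ1), res_pow hθ1, hθη]
      rw [Finset.sum_congr rfl h3, Finset.sum_range] at h2
      have h4 : ∀ i : Fin d, res (a i / a i₀) ∈ Fq p f₁ := fun i =>
        h.rs _ (div_mem (ha i) (ha i₀)) (hb1 i (Finset.mem_range.2 i.2))
      have h5 := Fintype.linearIndependent_iff.1 hlin (fun i => ⟨res (a i / a i₀), h4 i⟩) h2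
        ⟨i₀, hi₀⟩
      have h6 : res (a i₀ / a i₀) = 0 := congrArg Subtype.val h5
      rw [div_self h0, res_one] at h6
      exact one_ne_zero h6
    rw [e1, norm_mul, h1, mul_one]
  have hmaxx : ∀ x ∈ W, x ≠ 0 → ∃ a : ℕ → ℂ_[p], (∀ i, a i ∈ E₁) ∧
      x = ∑ i ∈ Finset.range d, a i * θ ^ i ∧ ∃ i₀ < d, a i₀ ≠ 0 ∧ (∀ i < d, ‖a i‖ ≤ ‖a i₀‖) ∧
        ‖x‖ = ‖a i₀‖ := by
    intro x hx hx0
    obtain ⟨a, ha, hxa⟩ := hW x hx
    obtain ⟨i₀, hi₀, hmax⟩ := Finset.exists_max_image (Finset.range d) (fun i => ‖a i‖)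
      ⟨0, Finset.mem_range.2 hdpos⟩
    have h0 : a i₀ ≠ 0 := by
      intro h1
      apply hx0
      rw [hxa]
      apply Finset.sum_eq_zero
      intro i hi
      have h2 := hmax i hi
      rw [h1, norm_zero] at h2
      have h3 : a i = 0 := norm_eq_zero.1 (le_antisymm h2 (norm_nonneg _))
      rw [h3, zero_mul]
    have hmax' : ∀ i < d, ‖a i‖ ≤ ‖a i₀‖ := fun i hi => hmax i (Finset.mem_range.2 hi)
    refine ⟨a, ha, hxa, i₀, Finset.mem_range.1 hi₀, h0, hmax', ?_⟩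
    rw [hxa]
    exact hnorm a ha i₀ (Finset.mem_range.1 hi₀) h0 hmax'
  refine ⟨W, hEW, hWfin, hEW h.mem, h.pos, h.lt, ?_, hf, ?_, ?_⟩
  · intro x hx hx0
    obtain ⟨a, ha, _, i₀, _, h0, _, hxn⟩ := hmaxx x hx hx0
    rw [hxn]
    exact h.val _ (ha i₀) h0
  · intro x hx hx1
    rcases eq_or_ne x 0 with hx0 | hx0
    · rw [hx0, res_zero]
      exact zero_pow (pow_ne_zero f hp.out.ne_zero)
    · obtain ⟨a, ha, hxa, i₀, _, h0, hmax, hxn⟩ := hmaxx x hx hx0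
      have h1 : ∀ i ∈ Finset.range d, ‖a i‖ ≤ 1 := fun i hi =>
        (hmax i (Finset.mem_range.1 hi)).trans (hxn ▸ hx1)
      have h2 : ∀ i ∈ Finset.range d, ‖a i * θ ^ i‖ ≤ 1 := fun i hi =>
        hmul _ _ (h1 i hi) (hpow _ _ hθ1)
      have h3 : res x ∈ Fq p f := by
        rw [hxa, ramx_res_sum _ _ h2]
        apply sum_mem
        intro i hi
        rw [res_mul (h1 i hi) (hpow _ _ hθ1), res_pow hθ1, hθη]
        exact mul_mem (hkK (h.rs _ (ha i) (h1 i hi))) (pow_mem hηK i)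
      exact h3
  · intro ξ hξ
    rcases eq_or_ne ξ 0 with h0 | h0
    · refine ⟨0, zero_mem _, zero_pow (pow_ne_zero f hp.out.ne_zero), ?_, ?_⟩
      · rw [norm_zero]
        exact zero_le_one
      · rw [res_zero, h0]
    · obtain ⟨n, hn⟩ := hgen ξ hξ h0
      have h1 : res (θ ^ n) = ξ := by rw [res_pow hθ1, hθη, hn]
      obtain ⟨z, hz, hz1, hz2, hz3⟩ := ramx_tei W hWfin hf (pow_mem hθW n) (hpow _ n hθ1) (by
        rw [h1]
        exact hξ)
      exact ⟨z, hz, hz1, hz2, hz3.trans h1⟩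

/-! ### the ramified part -/

theorem ramx_ram (W : IntermediateField ℚ_[p] ℂ_[p]) (π₁ : ℂ_[p]) (f : ℕ) (h : LF W π₁ f)
    (M : ℕ) (hM : 0 < M) (π : ℂ_[p]) (hπ : π ^ M = π₁) :
    ∃ E : IntermediateField ℚ_[p] ℂ_[p], W ≤ E ∧ LF E π f := by
  classical
  have hn : ‖π‖ ^ M = ‖π₁‖ := by rw [← norm_pow, hπ]
  have hπ0 : π ≠ 0 := by
    rintro rfl
    have h1 := h.pos
    rw [← hπ, zero_pow hM.ne', norm_zero] at h1
    exact lt_irrefl _ h1
  have hpos : 0 < ‖π‖ := norm_pos_iff.2 hπ0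
  have hlt : ‖π‖ < 1 := by
    by_contra h1
    have h2 := one_le_pow₀ (not_lt.1 h1) (n := M)
    rw [hn] at h2
    exact absurd h.lt (not_lt.2 h2)
  have hinj : Function.Injective (fun k : ℤ => ‖π‖ ^ k) := zpow_right_injective₀ hpos hlt.ne
  let μ : Polynomial W := X ^ M - C ⟨π₁, h.mem⟩
  have hμ : μ.Monic := monic_X_pow_sub_C _ hM.ne'
  have hμd : μ.natDegree = M := natDegree_X_pow_sub_C
  have hθ : aeval π μ = 0 := by
    simp only [μ, map_sub, map_pow, aeval_X, aeval_C]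
    rw [hπ]
    exact sub_self _
  obtain ⟨E, hEfin, hWE, hπE, hE⟩ := ramx_adjoin W h.fin π μ hμ hθ
  rw [hμd] at hE
  have hval : ∀ b ∈ W, b ≠ 0 → ∀ j : ℕ, ∃ k : ℤ, ‖b * π ^ j‖ = ‖π‖ ^ ((M : ℤ) * k + j) := by
    intro b hb hb0 j
    obtain ⟨k, hk⟩ := h.val b hb hb0
    refine ⟨k, ?_⟩
    rw [norm_mul, norm_pow, hk, ← hn, zpow_add₀ hpos.ne', zpow_mul, zpow_natCast, zpow_natCast]
  have hmod : ∀ (i j : ℕ) (k l : ℤ), i < M → j < M → (M : ℤ) * k + i = (M : ℤ) * l + j → i = j := by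
    intro i j k l hi hj hkl
    have h1 : ((M : ℤ) * k + i) % M = i := by
      rw [Int.add_comm, Int.add_mul_emod_self_left]
      exact Int.emod_eq_of_lt (by omega) (by omega)
    have h2 : ((M : ℤ) * l + j) % M = j := by
      rw [Int.add_comm, Int.add_mul_emod_self_left]
      exact Int.emod_eq_of_lt (by omega) (by omega)
    rw [hkl, h2] at h1
    exact_mod_cast h1.symm
  have hmaxx : ∀ x ∈ E, x ≠ 0 → ∃ b : ℕ → ℂ_[p], (∀ i, b i ∈ W) ∧
      x = ∑ j ∈ Finset.range M, b j * π ^ j ∧ ∃ j₀ < M, b j₀ ≠ 0 ∧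
        (∀ j < M, ‖b j * π ^ j‖ ≤ ‖b j₀ * π ^ j₀‖) ∧ ‖x‖ = ‖b j₀ * π ^ j₀‖ := by
    intro x hx hx0
    obtain ⟨b, hb, hxb⟩ := hE x hx
    obtain ⟨j₀, hj₀, hmax⟩ := Finset.exists_max_image (Finset.range M) (fun j => ‖b j * π ^ j‖)
      ⟨0, Finset.mem_range.2 hM⟩
    have h00 : b j₀ * π ^ j₀ ≠ 0 := by
      intro h1
      apply hx0
      rw [hxb]
      apply Finset.sum_eq_zero
      intro i hi
      have h2 := hmax i hi
      rw [h1, norm_zero] at h2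
      exact norm_eq_zero.1 (le_antisymm h2 (norm_nonneg _))
    have h0 : b j₀ ≠ 0 := fun h1 => h00 (by rw [h1, zero_mul])
    refine ⟨b, hb, hxb, j₀, Finset.mem_range.1 hj₀, h0, fun j hj => hmax j (Finset.mem_range.2 hj),
      ?_⟩
    rw [hxb]
    refine ramx_sum_eq _ (fun j => b j * π ^ j) hj₀ h00 ?_
    intro i hi hne
    refine lt_of_le_of_ne (hmax i hi) ?_
    intro heq
    rcases eq_or_ne (b i) 0 with h1 | h1
    · have h2 : ‖b j₀ * π ^ j₀‖ = 0 := by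
        rw [← heq, h1, zero_mul, norm_zero]
      exact h00 (norm_eq_zero.1 h2)
    · obtain ⟨k, hk⟩ := hval (b i) (hb i) h1 i
      obtain ⟨l, hl⟩ := hval (b j₀) (hb j₀) h0 j₀
      rw [hk, hl] at heq
      exact hne (hmod i j₀ k l (Finset.mem_range.1 hi) (Finset.mem_range.1 hj₀) (hinj heq))
  refine ⟨E, hWE, hEfin, hπE, hpos, hlt, ?_, h.fpos, ?_, ?_⟩
  · intro x hx hx0
    obtain ⟨b, hb, _, j₀, _, h0, _, hxn⟩ := hmaxx x hx hx0
    obtain ⟨k, hk⟩ := hval (b j₀) (hb j₀) h0 j₀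
    exact ⟨_, hxn.trans hk⟩
  · intro x hx hx1
    rcases eq_or_ne x 0 with hx0 | hx0
    · rw [hx0, res_zero]
      exact zero_pow (pow_ne_zero f hp.out.ne_zero)
    · obtain ⟨b, hb, hxb, j₀, _, h0, hmax, hxn⟩ := hmaxx x hx hx0
      have h1 : ∀ j ∈ Finset.range M, ‖b j * π ^ j‖ ≤ 1 := fun j hj =>
        (hmax j (Finset.mem_range.1 hj)).trans (hxn ▸ hx1)
      have h2 : ∀ j ∈ Finset.range M, j ≠ 0 → res (b j * π ^ j) = 0 := by
        intro j hj hj0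
        rw [res_eq_zero (h1 j hj)]
        refine lt_of_le_of_ne (h1 j hj) ?_
        intro h3
        rcases eq_or_ne (b j) 0 with h4 | h4
        · rw [h4, zero_mul, norm_zero] at h3
          exact zero_ne_one h3
        · obtain ⟨k, hk⟩ := hval (b j) (hb j) h4 j
          rw [h3, ← zpow_zero ‖π‖] at hk
          have h5 := hinj hk
          have h6 := hmod 0 j 0 k hM (Finset.mem_range.1 hj) (by simpa using h5)
          exact hj0 h6.symm
      have h3 : res x = res (b 0) := by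
        rw [hxb, ramx_res_sum _ _ h1, Finset.sum_eq_single_of_mem 0 (Finset.mem_range.2 hM)
          (fun j hj hj0 => h2 j hj hj0), pow_zero, mul_one]
      rw [h3]
      have h4 := h1 0 (Finset.mem_range.2 hM)
      rw [pow_zero, mul_one] at h4
      exact h.rs _ (hb 0) h4
  · intro ξ hξ
    obtain ⟨z, hz, h1, h2, h3⟩ := h.tei ξ hξ
    exact ⟨z, hWE hz, h1, h2, h3⟩

end

theorem st_RAMX (hRFA : ST_RFA) : ST_RAMX := by
  intro p hp E₁ π₁ f₁ h f M π hdiv hf hM hπ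
  obtain ⟨W, hEW, hW⟩ := ramx_unr hRFA E₁ π₁ f₁ h f hf hdiv
  obtain ⟨E, hWE, hE⟩ := ramx_ram W π₁ f hW M hM π hπ
  exact ⟨E, hEW.trans hWE, hE⟩

end Pool.Agent.Helper60.FF
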