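import Pool.Agent.Helper60.FF.StmtsC
import Pool.Agent.Helper91.FF.RAMX

/-!
# P1A: library (derivation of values of polynomials, logarithmic derivative)
-/

set_option autoImplicit false

namespace Pool.Agent.Helper60.FF

open Polynomial

section

variable {p : ℕ} [hp : Fact p.Prime]

theorem p1a_norm_pow {y : ℂ_[p]} (hy : ‖y‖ ≤ 1) (n : ℕ) : ‖y ^ n‖ ≤ 1 := by
  rw [norm_pow]
  exact pow_le_one₀ (norm_nonneg _) hy

theorem p1a_norm_mul {y y' : ℂ_[p]} (hy : ‖y‖ ≤ 1) (hy' : ‖y'‖ ≤ 1) : ‖y * y'‖ ≤ 1 := by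
  rw [norm_mul]
  exact mul_le_one₀ hy (norm_nonneg _) hy'

theorem p1a_norm_add {y y' : ℂ_[p]} (hy : ‖y‖ ≤ 1) (hy' : ‖y'‖ ≤ 1) : ‖y + y'‖ ≤ 1 :=
  (PadicComplex.isNonarchimedean p _ _).trans (max_le hy hy')

theorem p1a_norm_nat (n : ℕ) : ‖((n : ℕ) : ℂ_[p])‖ ≤ 1 := (mem_OO _).1 (natCast_mem (OO p) n)

/-- values of integral polynomials -/
theorem p1a_eval (E : IntermediateField ℚ_[p] ℂ_[p]) {G : Polynomial ℂ_[p]} (hG : Int' E G)
    {v : ℂ_[p]} (hv : v ∈ E) (hv1 : ‖v‖ ≤ 1) :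
    G.eval v ∈ E ∧ ‖G.eval v‖ ≤ 1 ∧ res (G.eval v) = (rd G).eval (res v) := by
  have h1 : ∀ j ∈ Finset.range (G.natDegree + 1), ‖G.coeff j * v ^ j‖ ≤ 1 := fun j _ =>
    p1a_norm_mul (hG j).2 (p1a_norm_pow hv1 j)
  refine ⟨?_, ?_, ?_⟩
  · rw [eval_eq_sum_range]
    exact sum_mem fun j _ => mul_mem (hG j).1 (pow_mem hv j)
  · rw [eval_eq_sum_range]
    exact ramx_sum_le _ _ zero_le_one h1
  · have h2 : (rd G).natDegree < G.natDegree + 1 := by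
      refine Nat.lt_succ_of_le (natDegree_le_iff_coeff_eq_zero.2 ?_)
      intro N hN
      rw [coeff_rd, coeff_eq_zero_of_natDegree_lt hN, res_zero]
    rw [eval_eq_sum_range, ramx_res_sum _ _ h1, eval_eq_sum_range' h2]
    refine Finset.sum_congr rfl fun j _ => ?_
    rw [coeff_rd, res_mul (hG j).2 (p1a_norm_pow hv1 j), res_pow hv1]

/-- coefficientwise derivation -/
noncomputable def p1a_dd (π : ℂ_[p]) (f : ℕ) (G : Polynomial ℂ_[p]) : Polynomial (RF p) :=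
  G.sum fun j a => monomial j (Dv π f a)

theorem p1a_Dv_zero (π : ℂ_[p]) (f : ℕ) : Dv π f 0 = 0 := by
  unfold Dv
  rw [zero_pow (pow_ne_zero f hp.out.ne_zero), sub_zero, zero_div, res_zero]

theorem p1a_Dv_one (π : ℂ_[p]) (f : ℕ) : Dv π f 1 = 0 := by
  unfold Dv
  rw [one_pow, sub_self, zero_div, res_zero]

theorem p1a_coeff_dd (π : ℂ_[p]) (f : ℕ) (G : Polynomial ℂ_[p]) (j : ℕ) :
    (p1a_dd π f G).coeff j = Dv π f (G.coeff j) := by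
  classical
  unfold p1a_dd
  rw [Polynomial.sum_def, finsetSum_coeff]
  simp only [coeff_monomial]
  rw [Finset.sum_ite_eq' G.support j]
  split_ifs with h
  · rfl
  · rw [notMem_support_iff.1 h, p1a_Dv_zero]

/-- a field with a derivation (output of `DER`) -/
structure P1D (E : IntermediateField ℚ_[p] ℂ_[p]) (π : ℂ_[p]) (f : ℕ) : Prop where
  mem : ∀ x ∈ E, ‖x‖ ≤ 1 → Dv π f x ∈ Fq p f
  add : ∀ x ∈ E, ∀ y ∈ E, ‖x‖ ≤ 1 → ‖y‖ ≤ 1 → Dv π f (x + y) = Dv π f x + Dv π f y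
  mul : ∀ x ∈ E, ∀ y ∈ E, ‖x‖ ≤ 1 → ‖y‖ ≤ 1 →
      Dv π f (x * y) = res x * Dv π f y + res y * Dv π f x
  small : ∀ x ∈ E, ‖x‖ ≤ ‖π‖ ^ 2 → Dv π f x = 0

section

variable {E : IntermediateField ℚ_[p] ℂ_[p]} {π : ℂ_[p]} {f : ℕ} (hD : P1D E π f)

include hD

theorem p1a_D_sum {ι : Type} (s : Finset ι) (g : ι → ℂ_[p]) (hg : ∀ i ∈ s, g i ∈ E ∧ ‖g i‖ ≤ 1) :
    Dv π f (∑ i ∈ s, g i) = ∑ i ∈ s, Dv π f (g i) := by
  classical
  induction s using Finset.induction_on with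
  | empty => simpa using p1a_Dv_zero π f
  | insert a s ha ih =>
    have h1 : ∀ i ∈ s, g i ∈ E ∧ ‖g i‖ ≤ 1 := fun i hi => hg i (Finset.mem_insert_of_mem hi)
    have h2 := hg a (Finset.mem_insert_self _ _)
    rw [Finset.sum_insert ha, Finset.sum_insert ha, hD.add _ h2.1 _ (sum_mem fun i hi => (h1 i hi).1)
      h2.2 (ramx_sum_le _ _ zero_le_one fun i hi => (h1 i hi).2), ih h1]

theorem p1a_D_pow {v : ℂ_[p]} (hv : v ∈ E) (hv1 : ‖v‖ ≤ 1) (j : ℕ) :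
    Dv π f (v ^ j) = (j : RF p) * res v ^ (j - 1) * Dv π f v := by
  induction j with
  | zero => simp [p1a_Dv_one]
  | succ j ih =>
    rw [pow_succ, hD.mul _ (pow_mem hv j) _ hv (p1a_norm_pow hv1 j) hv1, ih, res_pow hv1,
      Nat.add_sub_cancel]
    rcases j with _ | j
    · simp
    · rw [Nat.add_sub_cancel]
      push_cast
      ring

theorem p1a_D_eval {G : Polynomial ℂ_[p]} (hG : Int' E G) {v : ℂ_[p]} (hv : v ∈ E)
    (hv1 : ‖v‖ ≤ 1) :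
    Dv π f (G.eval v) = (p1a_dd π f G).eval (res v) +
      Dv π f v * (derivative (rd G)).eval (res v) := by
  have h1 : ∀ j ∈ Finset.range (G.natDegree + 1), G.coeff j * v ^ j ∈ E ∧ ‖G.coeff j * v ^ j‖ ≤ 1 :=
    fun j _ => ⟨mul_mem (hG j).1 (pow_mem hv j), p1a_norm_mul (hG j).2 (p1a_norm_pow hv1 j)⟩
  have h2 : (rd G).natDegree < G.natDegree + 1 := by
    refine Nat.lt_succ_of_le (natDegree_le_iff_coeff_eq_zero.2 ?_)
    intro N hN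
    rw [coeff_rd, coeff_eq_zero_of_natDegree_lt hN, res_zero]
  have h3 : (p1a_dd π f G).natDegree < G.natDegree + 1 := by
    refine Nat.lt_succ_of_le (natDegree_le_iff_coeff_eq_zero.2 ?_)
    intro N hN
    rw [p1a_coeff_dd, coeff_eq_zero_of_natDegree_lt hN, p1a_Dv_zero]
  rw [eval_eq_sum_range, p1a_D_sum hD _ _ h1, eval_eq_sum_range' h3, derivative_eval,
    Polynomial.sum_over_range' _ _ _ h2, Finset.mul_sum, ← Finset.sum_add_distrib]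
  · refine Finset.sum_congr rfl fun j _ => ?_
    rw [p1a_coeff_dd, coeff_rd, hD.mul _ (hG j).1 _ (pow_mem hv j) (hG j).2 (p1a_norm_pow hv1 j),
      p1a_D_pow hD hv hv1, res_pow hv1]
    ring
  · intro j
    simp

end

/-! ### the unit part and the logarithmic derivative -/

open Classical in
/-- the unit part -/
noncomputable def p1a_u (π x : ℂ_[p]) : ℂ_[p] :=
  if h : ∃ j : ℤ, ‖x‖ = ‖π‖ ^ j then x / π ^ h.choose else 1

/-- the logarithmic derivative -/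
noncomputable def p1a_al (π : ℂ_[p]) (f : ℕ) (x : ℂ_[p]) : RF p :=
  Dv π f (p1a_u π x) / res (p1a_u π x)

section

variable {E : IntermediateField ℚ_[p] ℂ_[p]} {π : ℂ_[p]} {f : ℕ} (h : LF E π f)

include h

theorem p1a_π0 : π ≠ 0 := norm_pos_iff.1 h.pos

theorem p1a_u_eq {x x0 : ℂ_[p]} {j : ℤ} (hx : x = π ^ j * x0) (h0 : ‖x0‖ = 1) :
    p1a_u π x = x0 := by
  have hn : ‖x‖ = ‖π‖ ^ j := by rw [hx, norm_mul, norm_zpow, h0, mul_one]
  have hex : ∃ j : ℤ, ‖x‖ = ‖π‖ ^ j := ⟨j, hn⟩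
  have h1 : hex.choose = j := by
    have h2 := hex.choose_spec
    have h3 : ‖π‖ ^ j = ‖π‖ ^ hex.choose := hn.symm.trans h2
    exact (zpow_right_injective₀ h.pos h.lt.ne h3).symm
  unfold p1a_u
  rw [dif_pos hex, h1, hx, mul_div_cancel_left₀ _ (zpow_ne_zero j (p1a_π0 h))]

theorem p1a_u_one {x : ℂ_[p]} (hx : ‖x‖ = 1) : p1a_u π x = x :=
  p1a_u_eq h (j := 0) (by simp) hx

theorem p1a_u_spec {x : ℂ_[p]} (hx : x ∈ E) (hx0 : x ≠ 0) : ∃ j : ℤ, ‖x‖ = ‖π‖ ^ j ∧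
    x = π ^ j * p1a_u π x ∧ p1a_u π x ∈ E ∧ ‖p1a_u π x‖ = 1 := by
  obtain ⟨j, hj⟩ := h.val x hx hx0
  have h1 : x = π ^ j * (x / π ^ j) := by
    rw [mul_div_cancel₀ _ (zpow_ne_zero j (p1a_π0 h))]
  have h2 : ‖x / π ^ j‖ = 1 := by
    rw [norm_div, norm_zpow, hj]
    exact div_self (zpow_ne_zero j h.pos.ne')
  have h3 := p1a_u_eq h h1 h2
  refine ⟨j, hj, ?_, ?_, ?_⟩
  · rw [h3]
    exact h1
  · rw [h3]
    exact div_mem hx (zpow_mem h.mem j)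
  · rw [h3]
    exact h2

theorem p1a_u_mul {x y : ℂ_[p]} (hx : x ∈ E) (hx0 : x ≠ 0) (hy : y ∈ E) (hy0 : y ≠ 0) :
    p1a_u π (x * y) = p1a_u π x * p1a_u π y := by
  obtain ⟨i, _, hi, _, hi1⟩ := p1a_u_spec h hx hx0
  obtain ⟨j, _, hj, _, hj1⟩ := p1a_u_spec h hy hy0
  refine p1a_u_eq h (j := i + j) ?_ ?_
  · conv_lhs => rw [hi, hj]
    rw [zpow_add₀ (p1a_π0 h)]
    ring
  · rw [norm_mul, hi1, hj1, mul_one]

theorem p1a_u_pow {x : ℂ_[p]} (hx : x ∈ E) (hx0 : x ≠ 0) (m : ℕ) :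
    p1a_u π (x ^ m) = p1a_u π x ^ m := by
  induction m with
  | zero =>
    rw [pow_zero, pow_zero]
    exact p1a_u_one h norm_one
  | succ m ih => rw [pow_succ, p1a_u_mul h (pow_mem hx m) (pow_ne_zero m hx0) hx hx0, ih, pow_succ]

theorem p1a_res_u {x : ℂ_[p]} (hx : x ∈ E) (hx0 : x ≠ 0) : res (p1a_u π x) ≠ 0 ∧
    res (p1a_u π x) ∈ Fq p f := by
  obtain ⟨_, _, _, h1, h2⟩ := p1a_u_spec h hx hx0
  exact ⟨(norm_eq_one_iff h2.le).1 h2, h.rs _ h1 h2.le⟩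

theorem p1a_al_one {x : ℂ_[p]} (hx : ‖x‖ = 1) : p1a_al π f x = Dv π f x / res x := by
  unfold p1a_al
  rw [p1a_u_one h hx]

variable (hD : P1D E π f)

include hD

theorem p1a_al_mul {x y : ℂ_[p]} (hx : x ∈ E) (hx0 : x ≠ 0) (hy : y ∈ E) (hy0 : y ≠ 0) :
    p1a_al π f (x * y) = p1a_al π f x + p1a_al π f y := by
  obtain ⟨_, _, _, hi, hi1⟩ := p1a_u_spec h hx hx0
  obtain ⟨_, _, _, hj, hj1⟩ := p1a_u_spec h hy hy0
  have h1 := (p1a_res_u h hx hx0).1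
  have h2 := (p1a_res_u h hy hy0).1
  unfold p1a_al
  rw [p1a_u_mul h hx hx0 hy hy0, hD.mul _ hi _ hj hi1.le hj1.le, res_mul hi1.le hj1.le]
  field_simp
  ring

theorem p1a_al_oneval : p1a_al π f 1 = 0 := by
  rw [p1a_al_one h norm_one, p1a_Dv_one, zero_div]

theorem p1a_al_pow {x : ℂ_[p]} (hx : x ∈ E) (hx0 : x ≠ 0) (m : ℕ) :
    p1a_al π f (x ^ m) = m * p1a_al π f x := by
  induction m with
  | zero => simpa using p1a_al_oneval h hD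
  | succ m ih =>
    rw [pow_succ, p1a_al_mul h hD (pow_mem hx m) (pow_ne_zero m hx0) hx hx0, ih]
    push_cast
    ring

theorem p1a_al_mem {x : ℂ_[p]} (hx : x ∈ E) (hx0 : x ≠ 0) : p1a_al π f x ∈ Fq p f := by
  obtain ⟨_, _, _, hi, hi1⟩ := p1a_u_spec h hx hx0
  exact div_mem (hD.mem _ hi hi1.le) (p1a_res_u h hx hx0).2

theorem p1a_D_al {x : ℂ_[p]} (hx : x ∈ E) (h1 : ‖x‖ = 1 ∨ ‖x‖ ≤ ‖π‖ ^ 2) :
    Dv π f x = res x * p1a_al π f x := by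
  rcases h1 with h1 | h1
  · rw [p1a_al_one h h1]
    have h2 := (norm_eq_one_iff h1.le).1 h1
    field_simp
  · have h2 : ‖x‖ < 1 := lt_of_le_of_lt h1 (pow_lt_one₀ h.pos.le h.lt two_ne_zero)
    rw [hD.small x hx h1, (res_eq_zero h2.le).2 h2, zero_mul]

end

/-- scaling of a polynomial over `E` -/
theorem p1a_scale (E : IntermediateField ℚ_[p] ℂ_[p]) (χ : Polynomial ℂ_[p]) (hχ : χ ≠ 0)
    (hE : ∀ j, χ.coeff j ∈ E) : ∃ r ∈ E, r ≠ 0 ∧ Int' E (C r * χ) ∧ rd (C r * χ) ≠ 0 := by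
  obtain ⟨j₀, hj₀, hmax⟩ := Finset.exists_max_image χ.support (fun j => ‖χ.coeff j‖)
    (support_nonempty.2 hχ)
  have h0 : χ.coeff j₀ ≠ 0 := mem_support_iff.1 hj₀
  refine ⟨(χ.coeff j₀)⁻¹, inv_mem (hE j₀), inv_ne_zero h0, ?_, ?_⟩
  · intro j
    rw [coeff_C_mul]
    refine ⟨mul_mem (inv_mem (hE j₀)) (hE j), ?_⟩
    rw [norm_mul, norm_inv]
    by_cases hj : j ∈ χ.support
    · exact inv_mul_le_one_of_le₀ (hmax j hj) (norm_nonneg _)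
    · rw [notMem_support_iff.1 hj, norm_zero, mul_zero]
      exact zero_le_one
  · intro h1
    have h2 : (rd (C (χ.coeff j₀)⁻¹ * χ)).coeff j₀ = 0 := by rw [h1, coeff_zero]
    rw [coeff_rd, coeff_C_mul, inv_mul_cancel₀ h0, res_one] at h2
    exact one_ne_zero h2

end

end Pool.Agent.Helper60.FF
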